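import Mathlib

set_option autoImplicit false

namespace Pool.Agent.MP_4d0cf5_co

open Classical in
/-- Probability of the event `A` under the law `D` on binary vectors of length `N`. -/
noncomputable def prob {N : ℕ} (D : (Fin N → Bool) → ℝ) (A : (Fin N → Bool) → Prop) : ℝ :=
  ∑ x, if A x then D x else 0

/-- Conditional probability of `A` given `B`. -/
noncomputable def condProb {N : ℕ} (D : (Fin N → Bool) → ℝ) (A B : (Fin N → Bool) → Prop) : ℝ :=
  prob D (fun y => A y ∧ B y) / prob D B

/-- `pa` gives the parent sets of a directed acyclic graph on `Fin N`, and `D` is a probability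
law on binary vectors that factorises along it. -/
structure IsBayesNet {N : ℕ} (pa : Fin N → Finset (Fin N)) (D : (Fin N → Bool) → ℝ) : Prop where
  acyclic : ∀ i, ¬ Relation.TransGen (fun a b => a ∈ pa b) i i
  nonneg : ∀ x, 0 ≤ D x
  total : ∑ x, D x = 1
  factorises : ∀ x, D x = ∏ i, condProb D (fun y => y i = x i) (fun y => ∀ j ∈ pa i, y j = x j)

/-- The underlying undirected graph of the directed graph with parent sets `pa`. -/
def underlying {N : ℕ} (pa : Fin N → Finset (Fin N)) : SimpleGraph (Fin N) :=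
  SimpleGraph.fromRel (fun a b => a ∈ pa b)

/-- A tree decomposition of `G` along the tree `T`. -/
structure IsTreeDecomposition {N m : ℕ} (G : SimpleGraph (Fin N)) (T : SimpleGraph (Fin m))
    (bag : Fin m → Finset (Fin N)) : Prop where
  isTree : T.IsTree
  vertex_mem : ∀ v, ∃ t, v ∈ bag t
  edge_mem : ∀ u v, G.Adj u v → ∃ t, u ∈ bag t ∧ v ∈ bag t
  connected : ∀ v, (T.induce {t | v ∈ bag t}).Connected

/-- The treewidth: the least `w` such that some tree decomposition has all bags of size at most
`w + 1`. -/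
noncomputable def treewidth {N : ℕ} (G : SimpleGraph (Fin N)) : ℕ :=
  sInf {w | ∃ (m : ℕ) (T : SimpleGraph (Fin m)) (bag : Fin m → Finset (Fin N)),
    IsTreeDecomposition G T bag ∧ ∀ t, (bag t).card ≤ w + 1}

/-- The disagreement pseudometric of the law `D`. -/
noncomputable def disagree {N : ℕ} (D : (Fin N → Bool) → ℝ) (i j : Fin N) : ℝ :=
  prob D (fun x => x i ≠ x j)

/-- `d` embeds into `ℓ₁^k` with distortion at most `C`. -/
def EmbedsL1 {N : ℕ} (d : Fin N → Fin N → ℝ) (k : ℕ) (C : ℝ) : Prop :=
  ∃ (f : Fin N → Fin k → ℝ) (r : ℝ), 0 < r ∧ ∀ i j,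
    r * d i j ≤ ∑ t, |f i t - f j t| ∧ ∑ t, |f i t - f j t| ≤ C * r * d i j

end Pool.Agent.MP_4d0cf5_co
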