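import Mathlib

set_option autoImplicit false

namespace Pool.Agent.MP_4d0cf5_co

/-- Huber function at scale `a`. -/
noncomputable def hub (a x : ℝ) : ℝ := if |x| ≤ a then x ^ 2 / (2 * a) else |x| - a / 2

lemma hub_ge {a : ℝ} (ha : 0 < a) (x s : ℝ) (hs : |s| ≤ 1) : s * x - a * s ^ 2 / 2 ≤ hub a x := by
  unfold hub
  split_ifs with h
  · rw [le_div_iff₀ (by positivity)]
    nlinarith [sq_nonneg (x - a * s)]
  · push Not at h
    have h1 : s * x ≤ |s| * |x| := by rw [← abs_mul]; exact le_abs_self _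
    have h2 : s ^ 2 = |s| ^ 2 := (sq_abs s).symm
    have h3 := abs_nonneg s
    rw [h2]
    nlinarith [mul_nonneg (sub_nonneg.mpr hs) (sub_nonneg.mpr h.le), sq_nonneg (1 - |s|),
      mul_nonneg ha.le (sq_nonneg (1 - |s|))]

lemma hub_eq {a : ℝ} (ha : 0 < a) (x : ℝ) :
    ∃ s : ℝ, |s| ≤ 1 ∧ hub a x = s * x - a * s ^ 2 / 2 := by
  unfold hub
  split_ifs with h
  · refine ⟨x / a, ?_, ?_⟩
    · rw [abs_div, abs_of_pos ha, div_le_one ha]; exact h
    · field_simp; ring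
  · rcases abs_cases x with ⟨h1, _⟩ | ⟨h1, _⟩
    · exact ⟨1, by simp, by rw [h1]; ring⟩
    · exact ⟨-1, by simp, by rw [h1]; ring⟩

lemma hub_mid {a : ℝ} (ha : 0 < a) (x y : ℝ) :
    2 * hub a ((x + y) / 2) ≤ hub a x + hub a y := by
  obtain ⟨s, hs, h⟩ := hub_eq ha ((x + y) / 2)
  have h1 := hub_ge ha x s hs
  have h2 := hub_ge ha y s hs
  rw [h]
  linarith

lemma hub_nonneg {a : ℝ} (ha : 0 < a) (x : ℝ) : 0 ≤ hub a x := by
  have := hub_ge ha x 0 (by simp)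
  simpa using this

lemma hub_le {a : ℝ} (ha : 0 < a) (x : ℝ) : hub a x ≤ |x| := by
  unfold hub
  split_ifs with h
  · rw [div_le_iff₀ (by positivity), ← sq_abs x]
    have := abs_nonneg x
    nlinarith
  · linarith

lemma hub_gap {a : ℝ} (ha : 0 < a) (x y : ℝ) (hx : |x| ≤ a) (hy : |y| ≤ a) :
    2 * hub a ((x + y) / 2) + (x - y) ^ 2 / (4 * a) = hub a x + hub a y := by
  have hm : |(x + y) / 2| ≤ a := by
    have := abs_le.mp hx
    have := abs_le.mp hy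
    rw [abs_le]
    constructor <;> linarith
  unfold hub
  rw [if_pos hx, if_pos hy, if_pos hm]
  field_simp
  ring

/-- Sum of Huber functions over dyadic scales. -/
noncomputable def phi (η : ℝ) (J : ℕ) (x : ℝ) : ℝ := ∑ j ∈ Finset.range (J + 1), hub (2 ^ j * η) x

lemma phi_nonneg {η : ℝ} (hη : 0 < η) (J : ℕ) (x : ℝ) : 0 ≤ phi η J x :=
  Finset.sum_nonneg fun j _ => hub_nonneg (by positivity) x

lemma phi_le {η : ℝ} (hη : 0 < η) (J : ℕ) (x : ℝ) : phi η J x ≤ (J + 1) * |x| := by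
  unfold phi
  have := Finset.sum_le_card_nsmul (Finset.range (J + 1)) (fun j => hub (2 ^ j * η) x) |x|
    (fun j _ => hub_le (by positivity) x)
  simpa using this

lemma exists_scale {η : ℝ} (hη : 0 < η) (M : ℝ) (hM : 0 ≤ M) :
    ∀ J : ℕ, M ≤ 2 ^ J * η → ∃ j ≤ J, M ≤ 2 ^ j * η ∧ 2 ^ j * η ≤ 2 * M + η := by
  intro J
  induction J with
  | zero => intro h; exact ⟨0, le_rfl, h, by simp; linarith⟩
  | succ J ih =>
    intro h
    by_cases h1 : M ≤ 2 ^ J * η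
    · obtain ⟨j, hj, h2⟩ := ih h1
      exact ⟨j, by omega, h2⟩
    · push Not at h1
      refine ⟨J + 1, le_rfl, h, ?_⟩
      rw [pow_succ]
      linarith

lemma phi_gap {η : ℝ} (hη : 0 < η) (J : ℕ) (x y l : ℝ) (hx : |x| ≤ 2 ^ J * η)
    (hy : |y| ≤ 2 ^ J * η) :
    2 * phi η J ((x + y) / 2) + (2 * l * |x - y| - l ^ 2 * (2 * |x| + 2 * |y| + η)) / 4
      ≤ phi η J x + phi η J y := by
  obtain ⟨j, hj, h1, h2⟩ := exists_scale hη (max |x| |y|)
    (le_trans (abs_nonneg x) (le_max_left _ _)) J (max_le hx hy)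
  have ha : (0:ℝ) < 2 ^ j * η := by positivity
  set a := 2 ^ j * η with hadef
  have hg := hub_gap ha x y (le_trans (le_max_left _ _) h1) (le_trans (le_max_right _ _) h1)
  have hmax : max |x| |y| ≤ |x| + |y| :=
    max_le (by linarith [abs_nonneg y]) (by linarith [abs_nonneg x])
  have hq : (2 * l * |x - y| - l ^ 2 * (2 * |x| + 2 * |y| + η)) / 4 ≤ (x - y) ^ 2 / (4 * a) := by
    have e1 : (2 * l * |x - y| - l ^ 2 * a) / 4 ≤ (x - y) ^ 2 / (4 * a) := by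
      rw [div_le_div_iff₀ (by norm_num) (by positivity), ← sq_abs (x - y)]
      nlinarith [sq_nonneg (|x - y| - l * a)]
    have e2 : l ^ 2 * a ≤ l ^ 2 * (2 * |x| + 2 * |y| + η) :=
      mul_le_mul_of_nonneg_left (by linarith) (sq_nonneg l)
    linarith
  have hsum : ∑ i ∈ Finset.range (J + 1), (hub (2 ^ i * η) x + hub (2 ^ i * η) y
      - 2 * hub (2 ^ i * η) ((x + y) / 2)) = phi η J x + phi η J y - 2 * phi η J ((x + y) / 2) := by
    unfold phi
    rw [Finset.sum_sub_distrib, Finset.sum_add_distrib, Finset.mul_sum]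
  have hsingle := Finset.single_le_sum (s := Finset.range (J + 1))
    (f := fun i => hub (2 ^ i * η) x + hub (2 ^ i * η) y - 2 * hub (2 ^ i * η) ((x + y) / 2))
    (fun i _ => by have := hub_mid (a := 2 ^ i * η) (by positivity) x y; linarith)
    (Finset.mem_range.mpr (Nat.lt_succ_of_le hj))
  rw [hsum] at hsingle
  linarith

/-- The potential on vectors. -/
noncomputable def Phi {k : ℕ} (J : ℕ) (w : Fin k → ℝ) : ℝ := ∑ t, phi (1 / (k + 1)) J (w t)

lemma Phi_nonneg {k : ℕ} (J : ℕ) (w : Fin k → ℝ) : 0 ≤ Phi J w :=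
  Finset.sum_nonneg fun t _ => phi_nonneg (by positivity) J (w t)

lemma Phi_le {k : ℕ} (J : ℕ) (w : Fin k → ℝ) {C : ℝ} (hw : ∑ t, |w t| ≤ C) :
    Phi J w ≤ (J + 1) * C := by
  unfold Phi
  calc ∑ t, phi (1 / (k + 1)) J (w t) ≤ ∑ t, ((J:ℝ) + 1) * |w t| :=
        Finset.sum_le_sum fun t _ => phi_le (by positivity) J (w t)
    _ = (J + 1) * ∑ t, |w t| := by rw [Finset.mul_sum]
    _ ≤ (J + 1) * C := mul_le_mul_of_nonneg_left hw (by positivity)

lemma Phi_gap {k : ℕ} (J : ℕ) (x y m : Fin k → ℝ) {C : ℝ} (hC : 0 ≤ C)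
    (hJ : C * (k + 1) ≤ 2 ^ J) (hx : ∑ t, |x t| ≤ C) (hy : ∑ t, |y t| ≤ C)
    (hm : ∀ t, m t = (x t + y t) / 2) (hxy : 1 ≤ ∑ t, |x t - y t|) :
    2 * Phi J m + 1 / (4 * (4 * C + 1)) ≤ Phi J x + Phi J y := by
  have hη : (0:ℝ) < 1 / (k + 1) := by positivity
  have hb : C ≤ 2 ^ J * (1 / ((k:ℝ) + 1)) := by
    rw [mul_one_div, le_div_iff₀ (by positivity)]; exact hJ
  have hxt : ∀ t, |x t| ≤ 2 ^ J * (1 / ((k:ℝ) + 1)) := fun t =>
    le_trans (le_trans (Finset.single_le_sum (f := fun t => |x t|) (fun i _ => abs_nonneg _)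
      (Finset.mem_univ t)) hx) hb
  have hyt : ∀ t, |y t| ≤ 2 ^ J * (1 / ((k:ℝ) + 1)) := fun t =>
    le_trans (le_trans (Finset.single_le_sum (f := fun t => |y t|) (fun i _ => abs_nonneg _)
      (Finset.mem_univ t)) hy) hb
  set l : ℝ := 1 / (4 * C + 1) with hl
  have hl0 : 0 < l := by positivity
  have h := Finset.sum_le_sum (s := Finset.univ)
    (fun t _ => phi_gap hη J (x t) (y t) l (hxt t) (hyt t))
  rw [Finset.sum_add_distrib, Finset.sum_add_distrib, ← Finset.mul_sum, ← Finset.sum_div,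
    Finset.sum_sub_distrib, ← Finset.mul_sum, ← Finset.mul_sum, Finset.sum_add_distrib,
    Finset.sum_add_distrib, ← Finset.mul_sum, ← Finset.mul_sum] at h
  have hk : ∑ _t : Fin k, (1 / ((k:ℝ) + 1)) ≤ 1 := by
    rw [Finset.sum_const, Finset.card_univ, Fintype.card_fin, nsmul_eq_mul, mul_one_div,
      div_le_one (by positivity)]
    linarith
  have hPm : Phi J m = ∑ t, phi (1 / (k + 1)) J ((x t + y t) / 2) := by
    unfold Phi
    exact Finset.sum_congr rfl fun t _ => by rw [hm t]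
  have e1 : l ^ 2 * (2 * ∑ t, |x t| + 2 * ∑ t, |y t| + ∑ _t : Fin k, (1 / ((k:ℝ) + 1)))
      ≤ l ^ 2 * (4 * C + 1) := mul_le_mul_of_nonneg_left (by linarith) (sq_nonneg l)
  have e2 : l ^ 2 * (4 * C + 1) = l := by rw [hl]; field_simp
  have e3 : 2 * l * 1 ≤ 2 * l * ∑ t, |x t - y t| := mul_le_mul_of_nonneg_left hxy (by positivity)
  have e4 : 1 / (4 * (4 * C + 1)) = l / 4 := by rw [hl]; field_simp
  rw [hPm, e4]
  unfold Phi
  linarith

/-- One diamond step: one of the four sides has a larger potential. -/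
lemma Phi_step {k : ℕ} (J : ℕ) (w w1 w2 w3 w4 : Fin k → ℝ) {C : ℝ} (hC : 0 ≤ C)
    (hJ : C * (k + 1) ≤ 2 ^ J) (h1 : ∑ t, |w1 t| ≤ C) (h2 : ∑ t, |w2 t| ≤ C)
    (h3 : ∑ t, |w3 t| ≤ C) (h4 : ∑ t, |w4 t| ≤ C)
    (h12 : ∀ t, w t = (w1 t + w2 t) / 2) (h34 : ∀ t, w t = (w3 t + w4 t) / 2)
    (h13 : 1 ≤ ∑ t, |w1 t - w3 t|) :
    Phi J w + 1 / (8 * (4 * C + 1)) ≤ Phi J w1 ∨ Phi J w + 1 / (8 * (4 * C + 1)) ≤ Phi J w2 ∨
    Phi J w + 1 / (8 * (4 * C + 1)) ≤ Phi J w3 ∨ Phi J w + 1 / (8 * (4 * C + 1)) ≤ Phi J w4 := by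
  have hsum : 2 * ∑ t, |w1 t - w3 t| ≤ ∑ t, |w1 t - w2 t| + ∑ t, |w3 t - w4 t| := by
    rw [Finset.mul_sum, ← Finset.sum_add_distrib]
    refine Finset.sum_le_sum fun t _ => ?_
    have e : 2 * (w1 t - w3 t) = (w1 t - w2 t) - (w3 t - w4 t) := by
      have := h12 t
      have := h34 t
      linarith
    have := abs_sub (w1 t - w2 t) (w3 t - w4 t)
    rw [← e, abs_mul] at this
    simpa using this
  have e4 : 1 / (4 * (4 * C + 1)) = 2 * (1 / (8 * (4 * C + 1))) := by field_simp; norm_num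
  by_cases hc : 1 ≤ ∑ t, |w1 t - w2 t|
  · have := Phi_gap J w1 w2 w hC hJ h1 h2 h12 hc
    by_contra hcon
    push Not at hcon
    linarith [hcon.1, hcon.2.1]
  · have hc' : 1 ≤ ∑ t, |w3 t - w4 t| := by push Not at hc; linarith
    have := Phi_gap J w3 w4 w hC hJ h3 h4 h34 hc'
    by_contra hcon
    push Not at hcon
    linarith [hcon.2.2.1, hcon.2.2.2]

end Pool.Agent.MP_4d0cf5_co
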