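import Pool.Agent.MP_4d0cf5_co.Tree
import Pool.Agent.MP_4d0cf5_co.Huber

set_option autoImplicit false

namespace Pool.Agent.MP_4d0cf5_co

variable {N k : ℕ}

lemma scaled_sum (f : Fin N → Fin k → ℝ) (u v : Fin N) {s : ℝ} (hs : 0 ≤ s) :
    ∑ t, |(f v t - f u t) * s| = (∑ t, |f u t - f v t|) * s := by
  rw [Finset.sum_mul]
  refine Finset.sum_congr rfl fun t _ => ?_
  rw [abs_mul, abs_of_nonneg hs, abs_sub_comm]

lemma scaled_le (f : Fin N → Fin k → ℝ) {r C : ℝ} (hr : 0 < r)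
    (hf : ∀ i j, r * disagree law i j ≤ ∑ t, |f i t - f j t| ∧
      ∑ t, |f i t - f j t| ≤ C * r * disagree law i j) (u v : Fin N) (n : ℕ)
    (h : disagree law u v = (1 / 2) ^ n) : ∑ t, |(f v t - f u t) * (2 ^ n / r)| ≤ C := by
  rw [scaled_sum f u v (by positivity)]
  have h1 := (hf u v).2
  rw [h] at h1
  calc (∑ t, |f u t - f v t|) * (2 ^ n / r) ≤ C * r * (1 / 2) ^ n * (2 ^ n / r) :=
        mul_le_mul_of_nonneg_right h1 (by positivity)
    _ = C := by rw [one_div, inv_pow]; field_simp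

lemma scaled_ge (f : Fin N → Fin k → ℝ) {r C : ℝ} (hr : 0 < r)
    (hf : ∀ i j, r * disagree law i j ≤ ∑ t, |f i t - f j t| ∧
      ∑ t, |f i t - f j t| ≤ C * r * disagree law i j) (u v : Fin N) (n : ℕ)
    (h : disagree law u v = (1 / 2) ^ n) : 1 ≤ ∑ t, |(f v t - f u t) * (2 ^ n / r)| := by
  rw [scaled_sum f u v (by positivity)]
  have h1 := (hf u v).1
  rw [h] at h1
  calc (1:ℝ) = r * (1 / 2) ^ n * (2 ^ n / r) := by rw [one_div, inv_pow]; field_simp
    _ ≤ (∑ t, |f u t - f v t|) * (2 ^ n / r) := mul_le_mul_of_nonneg_right h1 (by positivity)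

lemma descent (hN : 2 ≤ N) (f : Fin N → Fin k → ℝ) {r C : ℝ} (hr : 0 < r) (hC : 0 ≤ C)
    (hf : ∀ i j, r * disagree law i j ≤ ∑ t, |f i t - f j t| ∧
      ∑ t, |f i t - f j t| ≤ C * r * disagree law i j) (J : ℕ) (hJ : C * (k + 1) ≤ 2 ^ J) :
    ∀ l : ℕ, 4 ^ l ≤ N → ∃ (e : ℕ) (u v : Fin N), 3 * e + 4 ≤ 4 ^ (l + 1) ∧
      u.val = (ends e).1 ∧ v.val = (ends e).2 ∧ disagree law u v = (1 / 2) ^ (l + 1) ∧
      l * (1 / (8 * (4 * C + 1))) ≤ Phi J (fun t => (f v t - f u t) * (2 ^ (l + 1) / r)) := by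
  intro l
  induction l with
  | zero =>
    intro _
    refine ⟨0, ⟨0, by omega⟩, ⟨1, by omega⟩, by norm_num, by rw [ends_zero], by rw [ends_zero],
      ?_, ?_⟩
    · rw [disagree_01 _ _ rfl rfl]; norm_num
    · simpa using Phi_nonneg _ _
  | succ l ih =>
    intro hl
    obtain ⟨e, u, v, he, hu, hv, hd, hPhi⟩ := ih (le_trans (Nat.pow_le_pow_right (by norm_num)
      (Nat.le_succ l)) hl)
    let a : Fin N := ⟨2 * e + 2, by omega⟩
    let b : Fin N := ⟨2 * e + 3, by omega⟩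
    have hPa : Pf a = u := Fin.ext (by rw [hu]; exact PP_a e)
    have hPb : Pf b = u := Fin.ext (by rw [hu]; exact PP_b e)
    have hQa : Qf a = v := Fin.ext (by rw [hv]; exact QQ_a e)
    have hQb : Qf b = v := Fin.ext (by rw [hv]; exact QQ_b e)
    have ha2 : 2 ≤ a.val := by simp [a]
    have hb2 : 2 ≤ b.val := by simp [b]
    have hhalf : (1 / 2 : ℝ) * (1 / 2) ^ (l + 1) = (1 / 2) ^ (l + 1 + 1) := by ring
    have d1 : disagree law u a = (1 / 2) ^ (l + 1 + 1) := by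
      have := disagree_P a ha2
      rw [hPa, hQa, hd, hhalf] at this
      exact this
    have d2 : disagree law a v = (1 / 2) ^ (l + 1 + 1) := by
      have := disagree_Q a ha2
      rw [hPa, hQa, hd, hhalf] at this
      exact this
    have d3 : disagree law u b = (1 / 2) ^ (l + 1 + 1) := by
      have := disagree_P b hb2
      rw [hPb, hQb, hd, hhalf] at this
      exact this
    have d4 : disagree law b v = (1 / 2) ^ (l + 1 + 1) := by
      have := disagree_Q b hb2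
      rw [hPb, hQb, hd, hhalf] at this
      exact this
    have d5 : disagree law b a = (1 / 2) ^ (l + 1 + 1) := by
      have := disagree_ab a b ha2 (by simp [a, b]) (by rw [hPa, hPb]) (by rw [hQa, hQb])
      rw [hPa, hQa, hd, hhalf] at this
      rw [disagree_symm]
      exact this
    have h13 : 1 ≤ ∑ t, |(f a t - f u t) * (2 ^ (l + 1 + 1) / r)
        - (f b t - f u t) * (2 ^ (l + 1 + 1) / r)| := by
      have := scaled_ge f hr hf b a _ d5
      refine le_trans this (le_of_eq (Finset.sum_congr rfl fun t _ => ?_))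
      congr 1
      ring
    have hstep := Phi_step J (fun t => (f v t - f u t) * (2 ^ (l + 1) / r))
      (fun t => (f a t - f u t) * (2 ^ (l + 1 + 1) / r))
      (fun t => (f v t - f a t) * (2 ^ (l + 1 + 1) / r))
      (fun t => (f b t - f u t) * (2 ^ (l + 1 + 1) / r))
      (fun t => (f v t - f b t) * (2 ^ (l + 1 + 1) / r)) hC hJ
      (scaled_le f hr hf u a _ d1) (scaled_le f hr hf a v _ d2)
      (scaled_le f hr hf u b _ d3) (scaled_le f hr hf b v _ d4)
      (fun t => by ring) (fun t => by ring) h13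
    have hpow : 4 ^ (l + 1 + 1) = 4 * 4 ^ (l + 1) := by ring
    have hcast : ((l + 1 : ℕ) : ℝ) * (1 / (8 * (4 * C + 1)))
        = l * (1 / (8 * (4 * C + 1))) + 1 / (8 * (4 * C + 1)) := by push_cast; ring
    rcases hstep with h | h | h | h
    · exact ⟨4 * e + 1, u, a, by omega, by rw [ends_1, hu], by rw [ends_1], d1, by linarith⟩
    · exact ⟨4 * e + 2, a, v, by omega, by rw [ends_2], by rw [ends_2, hv], d2, by linarith⟩
    · exact ⟨4 * e + 3, u, b, by omega, by rw [ends_3, hu], by rw [ends_3], d3, by linarith⟩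
    · exact ⟨4 * e + 4, b, v, by omega, by rw [ends_4], by rw [ends_4, hv], d4, by linarith⟩

lemma depth_bound (hN : 2 ≤ N) {C : ℝ} (hC : 0 ≤ C) (h : EmbedsL1 (disagree (law (N := N))) k C)
    (J : ℕ) (hJ : C * (k + 1) ≤ 2 ^ J) (l : ℕ) (hl : 4 ^ l ≤ N) :
    (l : ℝ) ≤ 8 * (4 * C + 1) * C * (J + 1) := by
  obtain ⟨f, r, hr, hf⟩ := h
  obtain ⟨e, u, v, _, _, _, hd, hPhi⟩ := descent hN f hr hC hf J hJ l hl
  have h1 := Phi_le J _ (scaled_le f hr hf u v _ hd)
  have h2 := le_trans hPhi h1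
  rw [mul_one_div, div_le_iff₀ (by positivity)] at h2
  linarith

lemma embeds_mono {d : Fin N → Fin N → ℝ} (hd : ∀ i j, 0 ≤ d i j) {C C' : ℝ} (hC : C ≤ C')
    (h : EmbedsL1 d k C) : EmbedsL1 d k C' := by
  obtain ⟨f, r, hr, hf⟩ := h
  refine ⟨f, r, hr, fun i j => ⟨(hf i j).1, le_trans (hf i j).2 ?_⟩⟩
  have := hd i j
  gcongr

lemma disagree_nonneg (i j : Fin N) : 0 ≤ disagree law i j := by
  unfold disagree prob
  refine Finset.sum_nonneg fun x _ => ?_
  split_ifs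
  · exact law_nonneg x
  · exact le_rfl

theorem power_lower (C : ℝ) : ∃ ε : ℝ, 0 < ε ∧ ∀ᶠ N : ℕ in Filter.atTop, ∀ k : ℕ,
    EmbedsL1 (disagree (law (N := N))) k C → (N : ℝ) ^ ε < k := by
  obtain ⟨c, hc⟩ := pow_unbounded_of_one_lt C (by norm_num : (1:ℝ) < 2)
  obtain ⟨A0, hA0⟩ := exists_nat_ge (8 * (4 * (2:ℝ) ^ c + 1) * 2 ^ c)
  set A : ℕ := A0 + 1 with hA
  have hApos : (0:ℝ) < A := by positivity
  refine ⟨1 / (4 * A), by positivity, ?_⟩
  filter_upwards [Filter.eventually_ge_atTop (4 ^ (2 * A * (c + 3) + 2))] with N hN k hk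
  by_contra hcon
  push Not at hcon
  have hk' := embeds_mono disagree_nonneg hc.le hk
  have hN1 : 4 ^ 1 ≤ N := le_trans (Nat.pow_le_pow_right (by norm_num) (by omega)) hN
  set L := Nat.log 4 N with hL
  have hL1 : 4 ^ L ≤ N := Nat.pow_log_le_self 4 (by omega)
  have hL2 : N < 4 ^ (L + 1) := Nat.lt_pow_succ_log_self (by norm_num) N
  have hL3 : 2 * A * (c + 3) + 2 ≤ L := Nat.le_log_of_pow_le (by norm_num) hN
  set m := (L + 1) / (2 * A) + 1 with hm
  have hm1 : L + 1 ≤ 2 * A * m := by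
    have := Nat.lt_mul_div_succ (L + 1) (show 0 < 2 * A by omega)
    rw [hm]
    omega
  have hm2 : 2 * A * m ≤ L + 1 + 2 * A := by
    have := Nat.mul_div_le (L + 1) (2 * A)
    rw [hm, mul_add]
    omega
  have hkm : (k : ℝ) ≤ 2 ^ m := by
    refine le_trans hcon ?_
    have e1 : (N : ℝ) ≤ (2 ^ m) ^ (4 * A) := by
      have : N ≤ (2 ^ m) ^ (4 * A) := by
        calc N ≤ 4 ^ (L + 1) := hL2.le
          _ ≤ 4 ^ (2 * A * m) := Nat.pow_le_pow_right (by norm_num) hm1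
          _ = (2 ^ m) ^ (4 * A) := by
            rw [show (4:ℕ) = 2 ^ 2 from rfl, ← pow_mul, ← pow_mul]
            congr 1
            ring
      exact_mod_cast this
    calc (N : ℝ) ^ (1 / (4 * (A:ℝ))) ≤ ((2 ^ m) ^ (4 * A) : ℝ) ^ (1 / (4 * (A:ℝ))) :=
          Real.rpow_le_rpow (Nat.cast_nonneg N) e1 (by positivity)
      _ = 2 ^ m := by
          rw [one_div, show (4 * (A:ℝ)) = ((4 * A : ℕ) : ℝ) by push_cast; ring]
          exact Real.pow_rpow_inv_natCast (by positivity) (by omega)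
  have hJ : (2:ℝ) ^ c * (k + 1) ≤ 2 ^ (c + 1 + m) := by
    have h1 : (1:ℝ) ≤ 2 ^ m := one_le_pow₀ (by norm_num)
    rw [pow_add, pow_add, pow_one, mul_assoc]
    exact mul_le_mul_of_nonneg_left (by linarith) (by positivity)
  have hb := depth_bound (by omega) (by positivity) hk' (c + 1 + m) hJ L hL1
  have hA1 : 8 * (4 * (2:ℝ) ^ c + 1) * 2 ^ c ≤ A := by
    rw [hA]; push_cast; linarith
  have hb2 : (L : ℝ) ≤ A * ((c + 1 + m : ℕ) + 1) :=
    le_trans hb (mul_le_mul_of_nonneg_right hA1 (by positivity))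
  have hb3 : L ≤ A * (c + 1 + m + 1) := by exact_mod_cast hb2
  nlinarith

theorem main (C : ℝ) (k : ℕ → ℕ)
    (hk : ∀ ε : ℝ, 0 < ε → ∀ᶠ N : ℕ in Filter.atTop, (k N : ℝ) ≤ (N : ℝ) ^ ε) :
    ∀ᶠ N : ℕ in Filter.atTop, ∃ (pa : Fin N → Finset (Fin N)) (D : (Fin N → Bool) → ℝ),
      IsBayesNet pa D ∧ treewidth (underlying pa) = 2 ∧ ¬ EmbedsL1 (disagree D) (k N) C := by
  obtain ⟨ε, hε, h⟩ := power_lower C
  filter_upwards [h, hk ε hε, Filter.eventually_ge_atTop 3] with N h1 h2 h3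
  exact ⟨pa, law, isBayesNet, treewidth_eq h3, fun he => absurd (h1 _ he) (not_lt.mpr h2)⟩

theorem main_power (C : ℝ) : ∃ ε : ℝ, 0 < ε ∧ ∀ᶠ N : ℕ in Filter.atTop,
    ∃ (pa : Fin N → Finset (Fin N)) (D : (Fin N → Bool) → ℝ),
      IsBayesNet pa D ∧ treewidth (underlying pa) = 2 ∧
        ∀ k : ℕ, EmbedsL1 (disagree D) k C → (N : ℝ) ^ ε < k := by
  obtain ⟨ε, hε, h⟩ := power_lower C
  refine ⟨ε, hε, ?_⟩
  filter_upwards [h, Filter.eventually_ge_atTop 3] with N h1 h3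
  exact ⟨pa, law, isBayesNet, treewidth_eq h3, h1⟩

end Pool.Agent.MP_4d0cf5_co
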