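import Mathlib

set_option autoImplicit false

namespace Pool.Agent.MP_4d0cf5_co

open Function

variable {N : ℕ}

/-- `h` depends only on the coordinates with index `< m`. -/
def DepLt (m : ℕ) (h : (Fin N → Bool) → ℝ) : Prop :=
  ∀ x y : Fin N → Bool, (∀ j : Fin N, j.val < m → x j = y j) → h x = h y

lemma DepLt.mono {m n : ℕ} {h : (Fin N → Bool) → ℝ} (hh : DepLt m h) (hmn : m ≤ n) :
    DepLt n h := fun x y hxy => hh x y fun j hj => hxy j (lt_of_lt_of_le hj hmn)

lemma DepLt.upd {m : ℕ} {h : (Fin N → Bool) → ℝ} (hh : DepLt m h) (i : Fin N) (hi : m ≤ i.val)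
    (x : Fin N → Bool) (b : Bool) : h (update x i b) = h x := by
  apply hh
  intro j hj
  have : j ≠ i := by
    intro e
    subst e
    omega
  exact update_of_ne this _ _

lemma sum_avg (F : (Fin N → Bool) → ℝ) (i : Fin N) :
    2 * ∑ x, F x = ∑ x, (F (update x i true) + F (update x i false)) := by
  let σ : (Fin N → Bool) ≃ (Fin N → Bool) :=
    { toFun := fun x => update x i (!x i)
      invFun := fun x => update x i (!x i)
      left_inv := fun x => by simp
      right_inv := fun x => by simp }
  have h1 : ∑ x, F (σ x) = ∑ x, F x := Equiv.sum_comp σ F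
  rw [two_mul]
  nth_rewrite 2 [← h1]
  rw [← Finset.sum_add_distrib]
  refine Finset.sum_congr rfl fun x _ => ?_
  change F x + F (update x i (!x i)) = _
  cases hx : x i with
  | true =>
    have : update x i true = x := by rw [← hx]; exact update_eq_self i x
    rw [this]; simp
  | false =>
    have : update x i false = x := by rw [← hx]; exact update_eq_self i x
    rw [this]; simp [add_comm]

/-- Conditional probability tables in topological order. -/
structure IsTable (c : Fin N → (Fin N → Bool) → ℝ) : Prop where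
  dep : ∀ i, DepLt (i.val + 1) (c i)
  sum : ∀ i x, c i (update x i true) + c i (update x i false) = 1

noncomputable def Em (c : Fin N → (Fin N → Bool) → ℝ) (m : ℕ) (h : (Fin N → Bool) → ℝ) : ℝ :=
  ∑ x, (∏ i : Fin N, if i.val < m then c i x else 1 / 2) * h x

noncomputable def Tr (c : Fin N → (Fin N → Bool) → ℝ) (i : Fin N) (h : (Fin N → Bool) → ℝ)
    (x : Fin N → Bool) : ℝ :=
  c i (update x i true) * h (update x i true) + c i (update x i false) * h (update x i false)

lemma Em_succ {c : Fin N → (Fin N → Bool) → ℝ} (hc : IsTable c) (i : Fin N)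
    (h : (Fin N → Bool) → ℝ) : Em c (i.val + 1) h = Em c i.val (Tr c i h) := by
  classical
  let W : (Fin N → Bool) → ℝ :=
    fun x => ∏ j ∈ Finset.univ.erase i, if j.val < i.val then c j x else 1 / 2
  have hW : ∀ x b, W (update x i b) = W x := by
    intro x b
    refine Finset.prod_congr rfl fun j _ => ?_
    split_ifs with hj
    · exact (hc.dep j).upd i (by omega) x b
    · rfl
  have e1 : ∀ x, (∏ j : Fin N, if j.val < i.val + 1 then c j x else 1 / 2) = c i x * W x := by
    intro x
    rw [← Finset.mul_prod_erase Finset.univ _ (Finset.mem_univ i), if_pos (Nat.lt_succ_self _)]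
    congr 1
    refine Finset.prod_congr rfl fun j hj => ?_
    have : j.val ≠ i.val := fun e => (Finset.ne_of_mem_erase hj) (Fin.ext e)
    by_cases h1 : j.val < i.val
    · rw [if_pos h1, if_pos (by omega)]
    · rw [if_neg h1, if_neg (by omega)]
  have e2 : ∀ x, (∏ j : Fin N, if j.val < i.val then c j x else 1 / 2) = 1 / 2 * W x := by
    intro x
    rw [← Finset.mul_prod_erase Finset.univ _ (Finset.mem_univ i), if_neg (lt_irrefl _)]
  unfold Em
  simp only [e1, e2]
  have := sum_avg (fun x => c i x * W x * h x) i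
  simp only [hW] at this
  have e3 : ∑ x, 1 / 2 * W x * Tr c i h x = 1 / 2 * ∑ x, (c i (update x i true) * W x
      * h (update x i true) + c i (update x i false) * W x * h (update x i false)) := by
    rw [Finset.mul_sum]
    refine Finset.sum_congr rfl fun x _ => ?_
    unfold Tr
    ring
  rw [e3, ← this]
  ring

lemma Tr_of_dep {c : Fin N → (Fin N → Bool) → ℝ} (hc : IsTable c) (i : Fin N)
    {h : (Fin N → Bool) → ℝ} (hh : DepLt i.val h) : Tr c i h = h := by
  funext x
  unfold Tr
  rw [hh.upd i le_rfl, hh.upd i le_rfl, ← add_mul, hc.sum, one_mul]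

lemma Em_eq {c : Fin N → (Fin N → Bool) → ℝ} (hc : IsTable c) {m : ℕ}
    {h : (Fin N → Bool) → ℝ} (hh : DepLt m h) : ∀ n, m ≤ n → n ≤ N → Em c n h = Em c m h := by
  intro n hmn
  induction n, hmn using Nat.le_induction with
  | base => intro _; rfl
  | succ n hmn ih =>
    intro hn
    have := Em_succ hc ⟨n, hn⟩ h
    rw [Tr_of_dep hc ⟨n, hn⟩ (hh.mono hmn)] at this
    rw [this]
    exact ih (by omega)

lemma DepLt.tr {c : Fin N → (Fin N → Bool) → ℝ} (hc : IsTable c) (i : Fin N)
    {h : (Fin N → Bool) → ℝ} (hh : DepLt (i.val + 1) h) : DepLt i.val (Tr c i h) := by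
  intro x y hxy
  have key : ∀ b, ∀ j : Fin N, j.val < i.val + 1 → update x i b j = update y i b j := by
    intro b j hj
    by_cases e : j = i
    · subst e; simp
    · rw [update_of_ne e, update_of_ne e]
      apply hxy
      have : j.val ≠ i.val := fun e' => e (Fin.ext e')
      omega
  unfold Tr
  rw [hc.dep i _ _ (key true), hc.dep i _ _ (key false), hh _ _ (key true), hh _ _ (key false)]

/-- Expectation under the product law. -/
noncomputable def Ex (c : Fin N → (Fin N → Bool) → ℝ) (h : (Fin N → Bool) → ℝ) : ℝ :=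
  ∑ x, (∏ i, c i x) * h x

lemma Ex_eq_Em (c : Fin N → (Fin N → Bool) → ℝ) (h : (Fin N → Bool) → ℝ) :
    Ex c h = Em c N h := by
  unfold Ex Em
  simp

theorem tower {c : Fin N → (Fin N → Bool) → ℝ} (hc : IsTable c) (i : Fin N)
    {h : (Fin N → Bool) → ℝ} (hh : DepLt (i.val + 1) h) : Ex c h = Ex c (Tr c i h) := by
  rw [Ex_eq_Em, Ex_eq_Em, Em_eq hc hh N i.2 le_rfl, Em_eq hc (hh.tr hc i) N i.2.le le_rfl,
    Em_succ hc]

theorem Ex_const {c : Fin N → (Fin N → Bool) → ℝ} (hc : IsTable c) (a : ℝ) :
    Ex c (fun _ => a) = a := by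
  have hh : DepLt 0 (fun _ : Fin N → Bool => a) := fun _ _ _ => rfl
  rw [Ex_eq_Em, Em_eq hc hh N (Nat.zero_le _) le_rfl]
  unfold Em
  simp

lemma Ex_mul (c : Fin N → (Fin N → Bool) → ℝ) (a : ℝ) (h : (Fin N → Bool) → ℝ) :
    Ex c (fun x => a * h x) = a * Ex c h := by
  unfold Ex
  rw [Finset.mul_sum]
  exact Finset.sum_congr rfl fun x _ => by ring

end Pool.Agent.MP_4d0cf5_co
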