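import Pool.Agent.MP_4d0cf5_co.Defs
import Pool.Agent.MP_4d0cf5_co.Tower

set_option autoImplicit false

namespace Pool.Agent.MP_4d0cf5_co

open Function

/-- End points of the edges of the recursive diamond, in heap order. -/
def ends : ℕ → ℕ × ℕ
  | 0 => (0, 1)
  | e + 1 =>
    if e % 4 = 0 then ((ends (e / 4)).1, 2 * (e / 4) + 2)
    else if e % 4 = 1 then (2 * (e / 4) + 2, (ends (e / 4)).2)
    else if e % 4 = 2 then ((ends (e / 4)).1, 2 * (e / 4) + 3)
    else (2 * (e / 4) + 3, (ends (e / 4)).2)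
decreasing_by all_goals omega

lemma ends_zero : ends 0 = (0, 1) := by rw [ends]

lemma ends_1 (e : ℕ) : ends (4 * e + 1) = ((ends e).1, 2 * e + 2) := by
  have h1 : 4 * e % 4 = 0 := by omega
  have h2 : 4 * e / 4 = e := by omega
  rw [ends, if_pos h1, h2]

lemma ends_2 (e : ℕ) : ends (4 * e + 2) = (2 * e + 2, (ends e).2) := by
  have h1 : (4 * e + 1) % 4 = 1 := by omega
  have h2 : (4 * e + 1) / 4 = e := by omega
  rw [show 4 * e + 2 = (4 * e + 1) + 1 from rfl, ends, if_neg (by omega), if_pos h1, h2]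

lemma ends_3 (e : ℕ) : ends (4 * e + 3) = ((ends e).1, 2 * e + 3) := by
  have h1 : (4 * e + 2) % 4 = 2 := by omega
  have h2 : (4 * e + 2) / 4 = e := by omega
  rw [show 4 * e + 3 = (4 * e + 2) + 1 from rfl, ends, if_neg (by omega), if_neg (by omega),
    if_pos h1, h2]

lemma ends_4 (e : ℕ) : ends (4 * e + 4) = (2 * e + 3, (ends e).2) := by
  have h2 : (4 * e + 3) / 4 = e := by omega
  rw [show 4 * e + 4 = (4 * e + 3) + 1 from rfl, ends, if_neg (by omega), if_neg (by omega),
    if_neg (by omega), h2]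

lemma four_cases (n : ℕ) : n = 0 ∨ ∃ e, n = 4 * e + 1 ∨ n = 4 * e + 2 ∨ n = 4 * e + 3 ∨
    n = 4 * e + 4 := by
  rcases Nat.eq_zero_or_pos n with h | h
  · exact Or.inl h
  · exact Or.inr ⟨(n - 1) / 4, by omega⟩

lemma ends_lt (n : ℕ) : (ends n).1 < 2 * n + 2 ∧ (ends n).2 < 2 * n + 2 := by
  induction n using Nat.strong_induction_on with
  | _ n ih =>
    rcases four_cases n with rfl | ⟨e, rfl | rfl | rfl | rfl⟩
    · rw [ends_zero]; simp
    · have := ih e (by omega); rw [ends_1]; dsimp only; omega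
    · have := ih e (by omega); rw [ends_2]; dsimp only; omega
    · have := ih e (by omega); rw [ends_3]; dsimp only; omega
    · have := ih e (by omega); rw [ends_4]; dsimp only; omega

def PP (i : ℕ) : ℕ := if i < 2 then 0 else (ends ((i - 2) / 2)).1
def QQ (i : ℕ) : ℕ := if i < 2 then 0 else (ends ((i - 2) / 2)).2

lemma PP_a (e : ℕ) : PP (2 * e + 2) = (ends e).1 := by
  unfold PP; rw [if_neg (by omega), show (2 * e + 2 - 2) / 2 = e by omega]
lemma PP_b (e : ℕ) : PP (2 * e + 3) = (ends e).1 := by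
  unfold PP; rw [if_neg (by omega), show (2 * e + 3 - 2) / 2 = e by omega]
lemma QQ_a (e : ℕ) : QQ (2 * e + 2) = (ends e).2 := by
  unfold QQ; rw [if_neg (by omega), show (2 * e + 2 - 2) / 2 = e by omega]
lemma QQ_b (e : ℕ) : QQ (2 * e + 3) = (ends e).2 := by
  unfold QQ; rw [if_neg (by omega), show (2 * e + 3 - 2) / 2 = e by omega]

lemma PP_lt {i : ℕ} (hi : 1 ≤ i) : PP i < i := by
  unfold PP
  split_ifs with h
  · omega
  · have := (ends_lt ((i - 2) / 2)).1; omega

lemma QQ_lt {i : ℕ} (hi : 1 ≤ i) : QQ i < i := by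
  unfold QQ
  split_ifs with h
  · omega
  · have := (ends_lt ((i - 2) / 2)).2; omega

lemma PP_le (i : ℕ) : PP i ≤ i := by
  rcases Nat.eq_zero_or_pos i with rfl | h
  · simp [PP]
  · exact (PP_lt h).le

lemma QQ_le (i : ℕ) : QQ i ≤ i := by
  rcases Nat.eq_zero_or_pos i with rfl | h
  · simp [QQ]
  · exact (QQ_lt h).le

lemma ends_key (n : ℕ) (j : ℕ) (hj : j = (ends n).1 ∨ j = (ends n).2) :
    j = max (ends n).1 (ends n).2 ∨ (j < max (ends n).1 (ends n).2 ∧
      (j = PP (max (ends n).1 (ends n).2) ∨ j = QQ (max (ends n).1 (ends n).2))) := by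
  rcases four_cases n with rfl | ⟨e, rfl | rfl | rfl | rfl⟩
  · rw [ends_zero] at *
    simp [PP, QQ] at *
    omega
  · have := ends_lt e
    rw [ends_1] at *
    dsimp only at *
    rw [max_eq_right (by omega), PP_a, QQ_a]
    omega
  · have := ends_lt e
    rw [ends_2] at *
    dsimp only at *
    rw [max_eq_left (by omega), PP_a, QQ_a]
    omega
  · have := ends_lt e
    rw [ends_3] at *
    dsimp only at *
    rw [max_eq_right (by omega), PP_b, QQ_b]
    omega
  · have := ends_lt e
    rw [ends_4] at *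
    dsimp only at *
    rw [max_eq_left (by omega), PP_b, QQ_b]
    omega

lemma par_key (i j : ℕ) (hj : j = PP i ∨ j = QQ i) :
    j = max (PP i) (QQ i) ∨ (j < max (PP i) (QQ i) ∧
      (j = PP (max (PP i) (QQ i)) ∨ j = QQ (max (PP i) (QQ i)))) := by
  by_cases h : i < 2
  · have h1 : PP i = 0 := if_pos h
    have h2 : QQ i = 0 := if_pos h
    rw [h1, h2] at hj ⊢
    left
    omega
  · have h1 : PP i = (ends ((i - 2) / 2)).1 := if_neg h
    have h2 : QQ i = (ends ((i - 2) / 2)).2 := if_neg h
    rw [h1, h2] at hj ⊢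
    exact ends_key _ j hj

variable {N : ℕ}

def Pf (i : Fin N) : Fin N := ⟨PP i.val, lt_of_le_of_lt (PP_le _) i.2⟩
def Qf (i : Fin N) : Fin N := ⟨QQ i.val, lt_of_le_of_lt (QQ_le _) i.2⟩

def pa (i : Fin N) : Finset (Fin N) :=
  Finset.univ.filter (fun j => j.val < i.val ∧ (j.val = PP i.val ∨ j.val = QQ i.val))

lemma mem_pa {i j : Fin N} : j ∈ pa i ↔ j.val < i.val ∧ (j.val = PP i.val ∨ j.val = QQ i.val) := by
  simp [pa]

noncomputable def cpt (i : Fin N) (x : Fin N → Bool) : ℝ :=
  if i.val < 2 then 1 / 2 else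
    if x (Pf i) = x (Qf i) then (if x i = x (Pf i) then 1 else 0) else 1 / 2

noncomputable def law (x : Fin N → Bool) : ℝ := ∏ i, cpt i x

lemma Pf_ne {i : Fin N} (hi : 1 ≤ i.val) : Pf i ≠ i := by
  intro e
  have h1 := congrArg Fin.val e
  have h2 := PP_lt hi
  simp [Pf] at h1
  omega

lemma Qf_ne {i : Fin N} (hi : 1 ≤ i.val) : Qf i ≠ i := by
  intro e
  have h1 := congrArg Fin.val e
  have h2 := QQ_lt hi
  simp [Qf] at h1
  omega

lemma cpt_congr (i : Fin N) (x y : Fin N → Bool) (h1 : x i = y i)
    (h2 : ∀ j ∈ pa i, x j = y j) : cpt i x = cpt i y := by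
  unfold cpt
  by_cases h : i.val < 2
  · rw [if_pos h, if_pos h]
  · rw [if_neg h, if_neg h]
    have hp : x (Pf i) = y (Pf i) := h2 _ (mem_pa.mpr ⟨PP_lt (by omega), Or.inl rfl⟩)
    have hq : x (Qf i) = y (Qf i) := h2 _ (mem_pa.mpr ⟨QQ_lt (by omega), Or.inr rfl⟩)
    rw [h1, hp, hq]

lemma cpt_table : IsTable (cpt (N := N)) where
  dep := fun i x y hxy => cpt_congr i x y (hxy i (Nat.lt_succ_self _))
    (fun j hj => hxy j (Nat.lt_succ_of_lt (mem_pa.mp hj).1))
  sum := fun i x => by
    unfold cpt
    by_cases h : i.val < 2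
    · rw [if_pos h, if_pos h]; norm_num
    · rw [if_neg h, if_neg h]
      simp only [update_of_ne (Pf_ne (by omega : 1 ≤ i.val)),
        update_of_ne (Qf_ne (by omega : 1 ≤ i.val)), update_self]
      cases x (Pf i) <;> cases x (Qf i) <;> norm_num

lemma cpt_nonneg (i : Fin N) (x : Fin N → Bool) : 0 ≤ cpt i x := by
  unfold cpt
  split_ifs <;> norm_num

lemma law_nonneg (x : Fin N → Bool) : 0 ≤ law x := Finset.prod_nonneg fun i _ => cpt_nonneg i x

open Classical in
lemma prob_law (A : (Fin N → Bool) → Prop) :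
    prob law A = Ex cpt (fun x => if A x then 1 else 0) := by
  unfold prob Ex law
  refine Finset.sum_congr rfl fun x _ => ?_
  by_cases h : A x <;> simp [h]

lemma law_total : ∑ x : Fin N → Bool, law x = 1 := by
  have := Ex_const (cpt_table (N := N)) 1
  unfold Ex at this
  simpa [law] using this

lemma prob_joint (i : Fin N) (x : Fin N → Bool) :
    prob law (fun y => y i = x i ∧ ∀ j ∈ pa i, y j = x j)
      = cpt i x * prob law (fun y => ∀ j ∈ pa i, y j = x j) := by
  classical
  rw [prob_law, prob_law, tower cpt_table i, ← Ex_mul]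
  · congr 1
    funext y
    have hne : ∀ j ∈ pa i, j ≠ i := fun j hj e => by
      have := (mem_pa.mp hj).1
      subst e
      omega
    have hu : ∀ b, (∀ j ∈ pa i, update y i b j = x j) ↔ (∀ j ∈ pa i, y j = x j) := by
      intro b
      constructor
      · intro h j hj
        rw [← h j hj, update_of_ne (hne j hj)]
      · intro h j hj
        rw [update_of_ne (hne j hj), h j hj]
    unfold Tr
    simp only [hu, update_self]
    by_cases hy : ∀ j ∈ pa i, y j = x j
    · have hc : cpt i (update y i (x i)) = cpt i x :=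
        cpt_congr i _ _ (by simp) ((hu _).mpr hy)
      rw [if_pos hy]
      cases hx : x i with
      | true =>
        rw [hx] at hc
        rw [if_pos ⟨rfl, hy⟩, if_neg (by simp), hc]
        ring
      | false =>
        rw [hx] at hc
        rw [if_neg (by simp), if_pos ⟨rfl, hy⟩, hc]
        ring
    · rw [if_neg hy, if_neg (fun h => hy h.2), if_neg (fun h => hy h.2)]
      ring
  · intro y z hyz
    have h1 : y i = z i := hyz i (Nat.lt_succ_self _)
    have h2 : (∀ j ∈ pa i, y j = x j) ↔ (∀ j ∈ pa i, z j = x j) := by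
      constructor
      · intro h j hj
        rw [← h j hj, hyz j (Nat.lt_succ_of_lt (mem_pa.mp hj).1)]
      · intro h j hj
        rw [← h j hj, hyz j (Nat.lt_succ_of_lt (mem_pa.mp hj).1)]
    have h3 : (y i = x i ∧ ∀ j ∈ pa i, y j = x j) ↔ (z i = x i ∧ ∀ j ∈ pa i, z j = x j) := by
      rw [h1, h2]
    by_cases h4 : y i = x i ∧ ∀ j ∈ pa i, y j = x j
    · simp only [if_pos h4, if_pos (h3.mp h4)]
    · simp only [if_neg h4, if_neg (fun h => h4 (h3.mpr h))]

lemma law_le_prob (A : (Fin N → Bool) → Prop) (x : Fin N → Bool) (hx : A x) :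
    law x ≤ prob law A := by
  classical
  unfold prob
  have := Finset.single_le_sum (s := Finset.univ)
    (f := fun y => if A y then law y else 0)
    (fun y _ => by split_ifs; exact law_nonneg y; exact le_rfl) (Finset.mem_univ x)
  simp only [if_pos hx] at this
  convert this

theorem isBayesNet : IsBayesNet (pa (N := N)) law where
  acyclic := fun i h => by
    have key : ∀ a b : Fin N, Relation.TransGen (fun a b => a ∈ pa b) a b → a.val < b.val := by
      intro a b hab
      induction hab with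
      | single h => exact (mem_pa.mp h).1
      | tail _ h ih => exact lt_trans ih (mem_pa.mp h).1
    exact lt_irrefl _ (key i i h)
  nonneg := law_nonneg
  total := law_total
  factorises := fun x => by
    by_cases h : ∃ i, prob law (fun y => ∀ j ∈ pa i, y j = x j) = 0
    · obtain ⟨i, hi⟩ := h
      have h1 := law_le_prob (fun y => ∀ j ∈ pa i, y j = x j) x (fun _ _ => rfl)
      rw [hi] at h1
      rw [le_antisymm h1 (law_nonneg x)]
      symm
      apply Finset.prod_eq_zero (Finset.mem_univ i)
      unfold condProb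
      rw [hi, div_zero]
    · push Not at h
      unfold law
      refine Finset.prod_congr rfl fun i _ => ?_
      unfold condProb
      have := prob_joint i x
      unfold law at this h
      rw [this, mul_div_assoc, div_self (h i), mul_one]

lemma disagree_eq (i j : Fin N) :
    disagree law i j = Ex cpt (fun x => if x i = x j then 0 else 1) := by
  unfold disagree
  rw [prob_law]
  congr 1
  funext x
  by_cases h : x i = x j <;> simp [h]

lemma disagree_symm (i j : Fin N) : disagree law i j = disagree law j i := by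
  rw [disagree_eq, disagree_eq]
  simp only [eq_comm]

lemma dep_pair (i j : Fin N) (m : ℕ) (hi : i.val < m) (hj : j.val < m) :
    DepLt m (fun x : Fin N → Bool => if x i = x j then (0:ℝ) else 1) := by
  intro x y h
  simp only [h i hi, h j hj]

lemma disagree_01 (i j : Fin N) (hi : i.val = 0) (hj : j.val = 1) : disagree law i j = 1 / 2 := by
  rw [disagree_eq, tower cpt_table j (dep_pair i j _ (by omega) (by omega)),
    ← Ex_const (cpt_table (N := N)) (1 / 2)]
  congr 1
  funext x
  have hne : i ≠ j := fun e => by subst e; omega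
  unfold Tr cpt
  simp only [if_pos (show j.val < 2 by omega), update_of_ne hne, update_self]
  cases x i <;> norm_num

lemma disagree_P (a : Fin N) (ha : 2 ≤ a.val) :
    disagree law (Pf a) a = 1 / 2 * disagree law (Pf a) (Qf a) := by
  rw [disagree_eq, disagree_eq, ← Ex_mul, tower cpt_table a
    (dep_pair _ _ _ (Nat.lt_succ_of_le (PP_le _)) (Nat.lt_succ_self _))]
  congr 1
  funext x
  unfold Tr cpt
  simp only [if_neg (show ¬ a.val < 2 by omega), update_of_ne (Pf_ne (by omega : 1 ≤ a.val)),
    update_of_ne (Qf_ne (by omega : 1 ≤ a.val)), update_self]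
  cases x (Pf a) <;> cases x (Qf a) <;> norm_num

lemma disagree_Q (a : Fin N) (ha : 2 ≤ a.val) :
    disagree law a (Qf a) = 1 / 2 * disagree law (Pf a) (Qf a) := by
  rw [disagree_eq, disagree_eq, ← Ex_mul, tower cpt_table a
    (dep_pair _ _ _ (Nat.lt_succ_self _) (Nat.lt_succ_of_le (QQ_le _)))]
  congr 1
  funext x
  unfold Tr cpt
  simp only [if_neg (show ¬ a.val < 2 by omega), update_of_ne (Pf_ne (by omega : 1 ≤ a.val)),
    update_of_ne (Qf_ne (by omega : 1 ≤ a.val)), update_self]
  cases x (Pf a) <;> cases x (Qf a) <;> norm_num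

lemma disagree_ab (a b : Fin N) (ha : 2 ≤ a.val) (hab : a.val < b.val) (hP : Pf b = Pf a)
    (hQ : Qf b = Qf a) :
    disagree law a b = 1 / 2 * disagree law (Pf a) (Qf a) := by
  have hne : a ≠ b := fun e => by subst e; omega
  have e1 : Tr cpt b (fun x : Fin N → Bool => if x a = x b then (0:ℝ) else 1)
      = fun x => if x (Pf a) = x (Qf a) then (if x a = x (Pf a) then 0 else 1) else 1 / 2 := by
    funext x
    unfold Tr cpt
    simp only [if_neg (show ¬ b.val < 2 by omega), update_of_ne (Pf_ne (by omega : 1 ≤ b.val)),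
      update_of_ne (Qf_ne (by omega : 1 ≤ b.val)), update_self, update_of_ne hne]
    rw [hP, hQ]
    cases x (Pf a) <;> cases x (Qf a) <;> cases x a <;> norm_num
  rw [disagree_eq, disagree_eq, ← Ex_mul, tower cpt_table b
    (dep_pair _ _ _ (Nat.lt_succ_of_lt hab) (Nat.lt_succ_self _)), e1, tower cpt_table a]
  · congr 1
    funext x
    unfold Tr cpt
    simp only [if_neg (show ¬ a.val < 2 by omega), update_of_ne (Pf_ne (by omega : 1 ≤ a.val)),
      update_of_ne (Qf_ne (by omega : 1 ≤ a.val)), update_self]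
    cases x (Pf a) <;> cases x (Qf a) <;> norm_num
  · intro x y h
    simp only [h a (Nat.lt_succ_self _), h (Pf a) (Nat.lt_succ_of_le (PP_le _)),
      h (Qf a) (Nat.lt_succ_of_le (QQ_le _))]

end Pool.Agent.MP_4d0cf5_co
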