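import Pool.Agent.MP_4d0cf5_co.Net

set_option autoImplicit false

namespace Pool.Agent.MP_4d0cf5_co

open SimpleGraph

section Helly

variable {ι : Type} {T : SimpleGraph ι}

lemma walk_in_set {A : Set ι} (hA : (T.induce A).Connected) {x y : ι} (hx : x ∈ A) (hy : y ∈ A) :
    ∃ p : T.Walk x y, ∀ w ∈ p.support, w ∈ A := by
  obtain ⟨q⟩ := hA.preconnected ⟨x, hx⟩ ⟨y, hy⟩
  refine ⟨q.map (Embedding.induce A).toHom, ?_⟩
  intro w hw
  have hw' : w ∈ (q.map (Embedding.induce A).toHom).support := hw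
  rw [Walk.support_map, List.mem_map] at hw'
  obtain ⟨a, _, rfl⟩ := hw'
  exact a.2

lemma cross {P R : Set ι} : ∀ {x z : ι} (q : T.Walk x z), x ∈ P → z ∈ R →
    (∀ a b, s(a, b) ∈ q.edges → (a ∈ P ∧ b ∈ P) ∨ (a ∈ R ∧ b ∈ R)) →
    ∃ w ∈ q.support, w ∈ P ∧ w ∈ R := by
  intro x z q
  induction q with
  | nil => intro h1 h2 _; exact ⟨_, by simp, h1, h2⟩
  | @cons u v w h p ih =>
    intro h1 h2 h3
    rcases h3 u v (by simp) with h4 | h4
    · obtain ⟨w', hw', h5⟩ := ih h4.2 h2 (fun a b hab => h3 a b (by simp [hab]))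
      exact ⟨w', by simp [hw'], h5⟩
    · exact ⟨u, by simp, h1, h4.1⟩

lemma helly3 (hT : T.IsAcyclic) {A B C : Set ι} (hA : (T.induce A).Connected)
    (hB : (T.induce B).Connected) (hC : (T.induce C).Connected) {x y z : ι}
    (hxA : x ∈ A) (hxB : x ∈ B) (hyB : y ∈ B) (hyC : y ∈ C) (hzA : z ∈ A) (hzC : z ∈ C) :
    ∃ w, w ∈ A ∧ w ∈ B ∧ w ∈ C := by
  classical
  obtain ⟨p, hp⟩ := walk_in_set hB hxB hyB
  obtain ⟨r, hr⟩ := walk_in_set hC hyC hzC
  obtain ⟨q, hq⟩ := walk_in_set hA hxA hzA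
  have he : q.toPath = (p.append r).toPath := (hT.subsingleton_path x z).elim _ _
  obtain ⟨w, hw, h1⟩ := cross (P := B) (R := C) (q.toPath : T.Walk x z) hxB hzC (by
    intro a b hab
    rw [he] at hab
    have := Walk.edges_toPath_subset_edges _ hab
    rw [Walk.edges_append, List.mem_append] at this
    rcases this with h | h
    · exact Or.inl ⟨hp _ (p.fst_mem_support_of_mem_edges h), hp _ (p.snd_mem_support_of_mem_edges h)⟩
    · exact Or.inr ⟨hr _ (r.fst_mem_support_of_mem_edges h), hr _ (r.snd_mem_support_of_mem_edges h)⟩)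
  exact ⟨w, hq _ (Walk.support_toPath_subset_support _ hw), h1⟩

end Helly

lemma triangle_lower {N m : ℕ} {G : SimpleGraph (Fin N)} {T : SimpleGraph (Fin m)}
    {bag : Fin m → Finset (Fin N)} (h : IsTreeDecomposition G T bag) {a b c : Fin N}
    (hab : G.Adj a b) (hbc : G.Adj b c) (hac : G.Adj a c) : ∃ t, 3 ≤ (bag t).card := by
  obtain ⟨x, hx1, hx2⟩ := h.edge_mem a b hab
  obtain ⟨y, hy1, hy2⟩ := h.edge_mem b c hbc
  obtain ⟨z, hz1, hz2⟩ := h.edge_mem a c hac
  obtain ⟨w, h1, h2, h3⟩ := helly3 h.isTree.isAcyclic (h.connected a) (h.connected b)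
    (h.connected c) (x := x) (y := y) (z := z) hx1 hx2 hy1 hy2 hz1 hz2
  refine ⟨w, ?_⟩
  have hsub : ({a, b, c} : Finset (Fin N)) ⊆ bag w := by
    intro v hv
    simp only [Finset.mem_insert, Finset.mem_singleton] at hv
    rcases hv with rfl | rfl | rfl
    exacts [h1, h2, h3]
  have hcard : ({a, b, c} : Finset (Fin N)).card = 3 :=
    Finset.card_eq_three.mpr ⟨a, b, c, hab.ne, hac.ne, hbc.ne, rfl⟩
  rw [← hcard]
  exact Finset.card_le_card hsub

variable {N : ℕ}

def par (i : Fin N) : Fin N :=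
  ⟨max (PP i.val) (QQ i.val), lt_of_le_of_lt (max_le (PP_le _) (QQ_le _)) i.2⟩

lemma par_lt {i : Fin N} (hi : 1 ≤ i.val) : (par i).val < i.val := max_lt (PP_lt hi) (QQ_lt hi)

def tree (N : ℕ) : SimpleGraph (Fin N) := SimpleGraph.fromRel (fun a b => b = par a)

def bag (i : Fin N) : Finset (Fin N) := insert i (pa i)

lemma tree_adj {i : Fin N} (hi : 1 ≤ i.val) : (tree N).Adj i (par i) := by
  unfold tree
  rw [fromRel_adj]
  refine ⟨fun e => ?_, Or.inl rfl⟩
  have := par_lt hi
  rw [← e] at this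
  exact lt_irrefl _ this

lemma bag_par {i v : Fin N} (hv : v ∈ pa i) : v ∈ bag (par i) := by
  rw [mem_pa] at hv
  unfold bag
  rw [Finset.mem_insert, mem_pa]
  rcases par_key i.val v.val hv.2 with h | h
  · exact Or.inl (Fin.ext h)
  · exact Or.inr h

lemma induce_conn (v : Fin N) : ((tree N).induce {t | v ∈ bag t}).Connected := by
  have hv : v ∈ {t : Fin N | v ∈ bag t} := (Finset.mem_insert_self v (pa v) : v ∈ bag v)
  have key : ∀ n : ℕ, ∀ (t : Fin N) (ht : t ∈ {t : Fin N | v ∈ bag t}), t.val = n →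
      ((tree N).induce {t | v ∈ bag t}).Reachable ⟨t, ht⟩ ⟨v, hv⟩ := by
    intro n
    induction n using Nat.strong_induction_on with
    | _ n ih =>
      intro t ht hn
      have ht' : v ∈ insert t (pa t) := ht
      rcases Finset.mem_insert.mp ht' with h | h
      · subst h
        exact Reachable.refl _
      · have h1 : 1 ≤ t.val := by
          have := (mem_pa.mp h).1
          omega
        have h2 := ih (par t).val (by rw [← hn]; exact par_lt h1) (par t) (bag_par h) rfl
        refine Reachable.trans (Adj.reachable ?_) h2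
        exact tree_adj h1
  have : Nonempty ↥{t : Fin N | v ∈ bag t} := ⟨⟨v, hv⟩⟩
  exact Connected.mk fun a b => (key _ a.1 a.2 rfl).trans (key _ b.1 b.2 rfl).symm

lemma tree_conn (hN : 0 < N) : (tree N).Connected := by
  have key : ∀ n : ℕ, ∀ t : Fin N, t.val = n → (tree N).Reachable t ⟨0, hN⟩ := by
    intro n
    induction n using Nat.strong_induction_on with
    | _ n ih =>
      intro t hn
      rcases Nat.eq_zero_or_pos t.val with h | h
      · have : t = ⟨0, hN⟩ := Fin.ext h
        rw [this]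
      · exact (tree_adj h).reachable.trans (ih _ (by rw [← hn]; exact par_lt h) (par t) rfl)
  have : Nonempty (Fin N) := ⟨⟨0, hN⟩⟩
  exact Connected.mk fun a b => (key _ a rfl).trans (key _ b rfl).symm

lemma tree_isTree (hN : 0 < N) : (tree N).IsTree := by
  classical
  rw [isTree_iff_connected_and_card]
  refine ⟨tree_conn hN, le_antisymm ?_ (tree_conn hN).card_vert_le_card_edgeSet_add_one⟩
  have hsub : (tree N).edgeSet ⊆ ((Finset.univ.erase (⟨0, hN⟩ : Fin N)).image
      (fun i => s(i, par i)) : Finset (Sym2 (Fin N))) := by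
    intro e he
    induction e using Sym2.ind with
    | _ a b =>
      rw [mem_edgeSet, tree, fromRel_adj] at he
      have hz : par (⟨0, hN⟩ : Fin N) = ⟨0, hN⟩ := by
        apply Fin.ext
        simp [par, PP, QQ]
      rw [Finset.mem_coe, Finset.mem_image]
      rcases he with ⟨hne, h | h⟩
      · refine ⟨a, Finset.mem_erase.mpr ⟨fun e => hne ?_, Finset.mem_univ _⟩, by rw [h]⟩
        rw [h, e, hz]
      · refine ⟨b, Finset.mem_erase.mpr ⟨fun e => hne ?_, Finset.mem_univ _⟩, by
          rw [h, Sym2.eq_swap]⟩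
        rw [h, e, hz]
  have h1 := Set.ncard_le_ncard hsub (Finset.finite_toSet _)
  rw [Set.ncard_coe_finset] at h1
  have h2 := Finset.card_image_le (s := Finset.univ.erase (⟨0, hN⟩ : Fin N))
    (f := fun i => s(i, par i))
  rw [Finset.card_erase_of_mem (Finset.mem_univ _), Finset.card_univ, Fintype.card_fin] at h2
  rw [Nat.card_coe_set_eq, Nat.card_eq_fintype_card, Fintype.card_fin]
  omega

lemma decomp (hN : 0 < N) : IsTreeDecomposition (underlying (pa (N := N))) (tree N) bag where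
  isTree := tree_isTree hN
  vertex_mem := fun v => ⟨v, Finset.mem_insert_self _ _⟩
  edge_mem := fun u v h => by
    rw [underlying, fromRel_adj] at h
    rcases h.2 with h | h
    · exact ⟨v, Finset.mem_insert_of_mem h, Finset.mem_insert_self _ _⟩
    · exact ⟨u, Finset.mem_insert_self _ _, Finset.mem_insert_of_mem h⟩
  connected := induce_conn

lemma bag_card (i : Fin N) : (bag i).card ≤ 2 + 1 := by
  have h1 : pa i ⊆ {Pf i, Qf i} := by
    intro j hj
    rw [Finset.mem_insert, Finset.mem_singleton]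
    rcases (mem_pa.mp hj).2 with h | h
    · exact Or.inl (Fin.ext h)
    · exact Or.inr (Fin.ext h)
  have h2 := Finset.card_le_card h1
  have h3 : ({Pf i, Qf i} : Finset (Fin N)).card ≤ 2 := Finset.card_le_two
  have h4 := Finset.card_insert_le i (pa i)
  unfold bag
  omega

theorem treewidth_eq (hN : 3 ≤ N) : treewidth (underlying (pa (N := N))) = 2 := by
  have hmem : 2 ∈ {w | ∃ (m : ℕ) (T : SimpleGraph (Fin m)) (bag : Fin m → Finset (Fin N)),
      IsTreeDecomposition (underlying (pa (N := N))) T bag ∧ ∀ t, (bag t).card ≤ w + 1} :=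
    ⟨N, tree N, bag, decomp (by omega), bag_card⟩
  unfold treewidth
  refine le_antisymm (Nat.sInf_le hmem) (le_csInf ⟨2, hmem⟩ ?_)
  rintro w ⟨m, T, bg, hd, hw⟩
  have hP : PP 2 = 0 := by have := PP_a 0; rw [ends_zero] at this; exact this
  have hQ : QQ 2 = 1 := by have := QQ_a 0; rw [ends_zero] at this; exact this
  have h01 : (underlying (pa (N := N))).Adj ⟨0, by omega⟩ ⟨1, by omega⟩ := by
    rw [underlying, fromRel_adj]
    exact ⟨by simp, Or.inl (mem_pa.mpr ⟨by simp, Or.inl (by simp [PP])⟩)⟩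
  have h12 : (underlying (pa (N := N))).Adj ⟨1, by omega⟩ ⟨2, by omega⟩ := by
    rw [underlying, fromRel_adj]
    exact ⟨by simp, Or.inl (mem_pa.mpr ⟨by simp, Or.inr hQ.symm⟩)⟩
  have h02 : (underlying (pa (N := N))).Adj ⟨0, by omega⟩ ⟨2, by omega⟩ := by
    rw [underlying, fromRel_adj]
    exact ⟨by simp, Or.inl (mem_pa.mpr ⟨by simp, Or.inl hP.symm⟩)⟩
  obtain ⟨t, ht⟩ := triangle_lower hd h01 h12 h02
  have := hw t
  omega

end Pool.Agent.MP_4d0cf5_co
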